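import Pool.Agent.V1157.UR.Defs
import Pool.Agent.V1157.BD.Main

/-!
# Birational functors of bounded dimension vanish
-/

open CategoryTheory AlgebraicGeometry

universe u v w z

namespace Pool.Agent.V1157.UR

open Pool.Agent.H914 Pool.Agent.H914.VarClass Pool.Agent.H914.VarClass.Obj Pool.Agent.W492.BB
  Pool.Agent.W550.Corr Pool.Agent.TH133 Pool.Agent.Y148.BB
open Pool.Agent.V1157.RC (graph_mem cog_gr cog_gr_self pow_eq_sum pow_mem')
open Pool.Agent.V1157.BD (Pw HasPower exists_pw mt)

set_option linter.unusedSectionVars false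

section linear

variable {K A B : Type*} [Field K] [AddCommGroup A] [Module K A] [AddCommGroup B] [Module K B]
  {d : ℕ} {pl : ℕ → B →ₗ[K] A} {ps : ℕ → A →ₗ[K] B} {κ : K} {t : B}

lemma foldl_zero (l : List (Fin d)) :
    l.foldl (fun (s : A) (i : Fin d) => pl (i + 1) (ps i s)) 0 = 0 := by
  induction l with
  | nil => rfl
  | cons i l ih => rw [List.foldl_cons, map_zero, map_zero, ih]

lemma foldl_smul (l : List (Fin d)) (q : K) (x : A) :
    l.foldl (fun (s : A) (i : Fin d) => pl (i + 1) (ps i s)) (q • x) =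
      q • l.foldl (fun (s : A) (i : Fin d) => pl (i + 1) (ps i s)) x := by
  induction l generalizing x with
  | nil => rfl
  | cons i l ih => rw [List.foldl_cons, List.foldl_cons, map_smul, map_smul, ih]

/-- Applying the staircase operators in an order different from the natural one gives zero. -/
lemma stair_ne (h0 : ∀ i ≤ d, ∀ j ≤ d, i ≠ j → ps j (pl i t) = 0)
    (h1 : ∀ i ≤ d, ps i (pl i t) = κ • t) (l : List (Fin d)) (e : ℕ) (he : e ≤ d)
    (hl : ¬ (∀ q : ℕ, ∀ hq : q < l.length, (l[q] : ℕ) = e + q)) :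
    l.foldl (fun (s : A) (i : Fin d) => pl (i + 1) (ps i s)) (pl e t) = 0 := by
  induction l generalizing e with
  | nil => exact absurd (fun q hq => absurd hq (by simp)) hl
  | cons i l ih =>
    rw [List.foldl_cons]
    by_cases him : (i : ℕ) = e
    · subst him
      rw [h1 i he, map_smul, foldl_smul, ih (i + 1) (by omega), smul_zero]
      intro hcon
      apply hl
      intro q hq
      cases q with
      | zero => rfl
      | succ q =>
        rw [List.getElem_cons_succ, hcon q (by simpa using hq)]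
        ring
    · rw [h0 e he i (by have := i.2; omega) (Ne.symm him), map_zero, foldl_zero]

lemma stair (h1 : ∀ i ≤ d, ps i (pl i t) = κ • t) (f e : ℕ) (he : e + f = d)
    (l : List (Fin d)) (hle : l.length = f)
    (hl : ∀ q : ℕ, ∀ hq : q < l.length, (l[q] : ℕ) = e + q) :
    l.foldl (fun (s : A) (i : Fin d) => pl (i + 1) (ps i s)) (pl e t) = κ ^ f • pl d t := by
  induction f generalizing e l with
  | zero =>
    rw [List.length_eq_zero_iff] at hle
    subst hle
    rw [add_zero] at he
    subst he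
    rw [pow_zero, one_smul]
    rfl
  | succ f ih =>
    obtain ⟨i, l', rfl⟩ := List.exists_cons_of_length_eq_add_one hle
    have h2 : (i : ℕ) = e := by
      have := hl 0 (by simp)
      simpa using this
    rw [List.foldl_cons, h2, h1 e (by omega), map_smul, foldl_smul,
      ih (e + 1) (by omega) l' (by simpa using hle) (fun q hq => ?_), smul_smul, ← pow_succ']
    have := hl (q + 1) (by simpa using hq)
    rw [List.getElem_cons_succ] at this
    omega

end linear

variable {k : Type u} [Field k] {𝒱 : VarClass k} {C : TheoryData.{u, v, 0} 𝒱 ℚ}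
  [hC : IsChowProj C] {K : Type w} [Field K] {P : CorrFunctor.{u, v, w, z} C K} {n : ℕ}
  {S V X Y : 𝒱.Obj}

lemma IsBirational.map_zero_left (hP : IsBirational P n) (t : P.W X) :
    P.map (0 : C.A (X.prod Y)) t = 0 := by
  have h := hP.smul 0 (0 : C.A (X.prod Y)) t
  rwa [zero_smul, Rat.cast_zero, zero_smul] at h

lemma IsBirational.map_sum (hP : IsBirational P n) {ι : Type*} (s : Finset ι)
    (Γ : ι → C.A (X.prod Y)) (t : P.W X) (h : ∀ i ∈ s, P.map (Γ i) t = 0) :
    P.map (∑ i ∈ s, Γ i) t = 0 := by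
  classical
  induction s using Finset.induction_on with
  | empty => rw [Finset.sum_empty, hP.map_zero_left]
  | insert i s hi ih =>
    rw [Finset.sum_insert hi, hP.add, h i (Finset.mem_insert_self i s),
      ih fun j hj => h j (Finset.mem_insert_of_mem hj), add_zero]

lemma IsBirational.map_pow (hP : IsBirational P n) (hX : X.dim = n) (hY : Y.dim = n)
    {a : C.A X} {b : C.A Y} (ha : a ∈ C.gr X 1) (hb : b ∈ C.gr Y 1) (c : ℚ) (t : P.W X) :
    P.map (c • (C.pull (fst X Y) a + C.pull (snd X Y) b) ^ n) t = 0 := by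
  rw [hP.smul, pow_eq_sum, hP.map_sum, smul_zero]
  intro i hi
  have hi' : i ≤ n := by
    have := Finset.mem_range.1 hi
    omega
  rw [hP.smul]
  have h1 := hP.ext i (n - i) (a ^ i) (b ^ (n - i)) t hX hY (by omega) (pow_mem' ha i)
    (pow_mem' hb (n - i))
  have h2 : P.map (C.ext (a ^ i) (b ^ (n - i))) t = 0 := h1
  rw [h2, smul_zero]

section power

variable {N : ℕ} {p : ℕ → (V ⟶ S)} {a : C.A S} {c κ : ℚ} (h : Pw C n N p a c κ)
include h

lemma gr_deg (i : ℕ) : C.Deg n (C.graph (p i)) := by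
  have h1 := graph_mem (C := C) (p i)
  rw [h.dimS] at h1
  exact h1

lemma cog_deg (i : ℕ) : C.Deg n (C.cograph (p i)) := by
  have h1 := cograph_mem (C := C) (p i)
  exact gr_congr (by rw [h.dimS]) h1

lemma push_pull_ne (hP : IsBirational P n) {i j : ℕ} (hi : i < N) (hj : j < N) (hij : i ≠ j)
    (t : P.W S) : P.map (C.graph (p j)) (P.map (C.cograph (p i)) t) = 0 := by
  rw [← hP.comp _ _ t h.dimS h.dimV h.dimS (cog_deg h i) (gr_deg h j), cog_gr,
    h.pq i hi j hj hij]
  exact hP.map_pow h.dimS h.dimS h.ha h.ha c t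

lemma push_pull_eq (hP : IsBirational P n) {i : ℕ} (hi : i < N) (t : P.W S) :
    P.map (C.graph (p i)) (P.map (C.cograph (p i)) t) = (κ : K) • t := by
  rw [← hP.comp _ _ t h.dimS h.dimV h.dimS (cog_deg h i) (gr_deg h i), cog_gr_self (h.pp i hi),
    hP.smul]
  congr 1
  exact hP.diag t h.dimS

end power

/-- **Birational functors of bounded dimension vanish.** -/
theorem of_bounded [CharZero K] (hP : IsBirational P n)
    (hV : ∀ (S : 𝒱.Obj) (N : ℕ), S.dim = n → HasPower C n N S) {D : ℕ} (hD : DimAtMost P n D) :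
    Vanishes P n := by
  intro X x hX
  obtain ⟨V, p, a, c, κ, h⟩ := exists_pw hX (hV X (D + 1) hX)
  obtain ⟨b, hb, hb2⟩ := hD V (fun i => P.map (C.cograph (p i)) x) h.dimV
  obtain ⟨i, hi⟩ : ∃ i, b i ≠ 0 := by
    by_contra hcon
    push Not at hcon
    exact hb (funext hcon)
  have hκ : (κ : K) ≠ 0 := by exact_mod_cast h.hκ
  have h1 := congrArg (P.act (C.graph (p i))) hb2
  rw [map_sum, map_zero, Finset.sum_eq_single i, map_smul] at h1
  · have h2 : P.act (C.graph (p i)) (P.map (C.cograph (p i)) x) = (κ : K) • x :=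
      push_pull_eq h hP i.2 x
    rw [h2, smul_smul] at h1
    rw [← one_smul K x, ← inv_mul_cancel₀ (mul_ne_zero hi hκ), mul_smul, h1, smul_zero]
  · intro j _ hj
    have h2 : P.act (C.graph (p i)) (P.map (C.cograph (p j)) x) = 0 :=
      push_pull_ne h hP j.2 i.2 (fun e => hj (Fin.ext e)) x
    rw [map_smul, h2, smul_zero]
  · intro h0
    exact absurd (Finset.mem_univ i) h0

lemma ops_eq (hP : IsBirational P n) {d : ℕ} {p : ℕ → (V ⟶ S)} {a : C.A S} {c κ : ℚ}
    (h : Pw C n (d + 1) p a c κ) (l : List (Fin d)) (s : P.W V) :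
    P.ops (l.map fun i : Fin d => mt C (p i) (p (i + 1))) s =
      l.foldl (fun (s : P.W V) (i : Fin d) => P.act (C.cograph (p (i + 1))) (P.act (C.graph (p i)) s)) s := by
  rw [CorrFunctor.ops, List.foldl_map]
  congr 1
  funext s i
  exact hP.comp _ _ s h.dimV h.dimS h.dimV (gr_deg h i) (cog_deg h (i + 1))

/-- A polynomial identity implies that the functor vanishes. -/
theorem of_identity [CharZero K] (hP : IsBirational P n)
    (hV : ∀ (S : 𝒱.Obj) (N : ℕ), S.dim = n → HasPower C n N S) {d : ℕ}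
    {c : Equiv.Perm (Fin d) → K} (hc : c ≠ 0) (hI : Identity P n d c) : Vanishes P n := by
  intro X x hX
  obtain ⟨V, p, a, b, κ, h⟩ := exists_pw hX (hV X (d + 1) hX)
  obtain ⟨σ, hσ⟩ : ∃ σ, c σ ≠ 0 := by
    by_contra hcon
    push Not at hcon
    exact hc (funext hcon)
  have hκ : (κ : K) ≠ 0 := by exact_mod_cast h.hκ
  have h1 := hI V (fun i => mt C (p (σ⁻¹ i)) (p (σ⁻¹ i + 1))) (P.map (C.cograph (p 0)) x) h.dimV
    (fun i => h.mt_mem _ _)
  have e0 : ∀ τ : Equiv.Perm (Fin d), (List.ofFn fun i => mt C (p (σ⁻¹ (τ i)))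
      (p (σ⁻¹ (τ i) + 1))) = (List.ofFn fun i => (σ⁻¹ * τ) i).map fun i : Fin d =>
        mt C (p i) (p (i + 1)) := by
    intro τ
    rw [List.map_ofFn]
    rfl
  have g0 : ∀ i ≤ d, ∀ j ≤ d, i ≠ j →
      P.act (C.graph (p j)) (P.act (C.cograph (p i)) x) = 0 :=
    fun i hi j hj hij => push_pull_ne h hP (by omega) (by omega) hij x
  have g1 : ∀ i ≤ d, P.act (C.graph (p i)) (P.act (C.cograph (p i)) x) = (κ : K) • x :=
    fun i hi => push_pull_eq h hP (by omega) x
  rw [Finset.sum_eq_single σ] at h1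
  · rw [e0, inv_mul_cancel, ops_eq hP h] at h1
    have h2 := stair (pl := fun i => P.act (C.cograph (p i))) (ps := fun i => P.act (C.graph (p i)))
      (t := x) g1 d 0 (by omega) (List.ofFn fun i : Fin d => (1 : Equiv.Perm (Fin d)) i) (by simp)
      (by intro q hq; simp)
    have h2' := h1
    rw [CorrFunctor.map] at h2'
    rw [h2, smul_smul] at h2'
    have h3 : c σ * (κ : K) ^ d ≠ 0 := mul_ne_zero hσ (pow_ne_zero _ hκ)
    have h4 : P.act (C.cograph (p d)) x = 0 := by
      rw [← one_smul K (P.act (C.cograph (p d)) x), ← inv_mul_cancel₀ h3, mul_smul, h2', smul_zero]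
    have h5 := g1 d le_rfl
    rw [h4, map_zero] at h5
    rw [← one_smul K x, ← inv_mul_cancel₀ hκ, mul_smul, ← h5, smul_zero]
  · intro τ _ hτ
    have h2 := stair_ne (pl := fun i => P.act (C.cograph (p i)))
      (ps := fun i => P.act (C.graph (p i))) (t := x) g0 g1
      (List.ofFn fun i : Fin d => (σ⁻¹ * τ) i) 0 (by omega) (by
        intro hcon
        apply hτ
        have h3 : σ⁻¹ * τ = 1 := by
          ext i
          have := hcon i (by simp)
          simpa using this
        rw [inv_mul_eq_one] at h3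
        exact h3.symm)
    rw [e0, ops_eq hP h]
    rw [CorrFunctor.map, h2, smul_zero]
  · intro h0
    exact absurd (Finset.mem_univ σ) h0

/-- The case of the commutator. -/
lemma identity_of_comm (h : Commuting P n) :
    Identity P n 2 (fun σ => if σ = 1 then (1 : K) else -1) := by
  intro X L t hX hL
  have h1 := h X (L 1) (L 0) t hX (hL 1) (hL 0)
  have h2 : (Finset.univ : Finset (Equiv.Perm (Fin 2))) = {1, Equiv.swap 0 1} := by decide
  have h3 : (1 : Equiv.Perm (Fin 2)) ≠ Equiv.swap 0 1 := by decide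
  rw [h2, Finset.sum_pair h3]
  beta_reduce
  rw [if_pos rfl, if_neg h3.symm]
  simp only [List.ofFn_succ, List.ofFn_zero, Equiv.Perm.one_apply, one_smul, neg_smul,
    Equiv.swap_apply_left, Fin.succ_zero_eq_one, Equiv.swap_apply_right, CorrFunctor.ops,
    List.foldl_cons, List.foldl_nil, ← sub_eq_add_neg]
  exact sub_eq_zero.2 h1

theorem main [CharZero K] (hP : IsBirational P n)
    (hV : ∀ (S : 𝒱.Obj) (N : ℕ), S.dim = n → HasPower C n N S) :
    List.TFAE [Vanishes P n, ∃ D, DimAtMost P n D, Commuting P n,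
      ∃ (d : ℕ) (c : Equiv.Perm (Fin d) → K), c ≠ 0 ∧ Identity P n d c] := by
  tfae_have 1 → 2 := by
    intro h0
    refine ⟨0, fun X x hX => ⟨fun _ => 1, ?_, ?_⟩⟩
    · intro h1
      exact one_ne_zero (congrFun h1 0)
    · apply Finset.sum_eq_zero
      intro i _
      rw [h0 X (x i) hX, smul_zero]
  tfae_have 2 → 1 := by
    rintro ⟨D, hD⟩
    exact of_bounded hP hV hD
  tfae_have 1 → 3 := by
    intro h0 X A B x hX _ _
    rw [h0 X (P.map A (P.map B x)) hX, h0 X (P.map B (P.map A x)) hX]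
  tfae_have 3 → 4 := by
    intro h0
    refine ⟨2, fun σ => if σ = 1 then 1 else -1, ?_, identity_of_comm h0⟩
    intro h1
    have := congrFun h1 1
    simp at this
  tfae_have 4 → 1 := by
    rintro ⟨d, c, hc, hI⟩
    exact of_identity hP hV hc hI
  tfae_finish

end Pool.Agent.V1157.UR
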