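import Pool.Agent.V1157.BD.Defs
import Pool.Agent.TH133.Ext

/-!
# Birational functors such as unramified cohomology: definitions
-/

open CategoryTheory AlgebraicGeometry

universe u v w z

namespace Pool.Agent.V1157.UR

open Pool.Agent.H914 Pool.Agent.H914.VarClass Pool.Agent.H914.VarClass.Obj Pool.Agent.W492.BB

variable {k : Type u} [Field k] {𝒱 : VarClass k}

/-- The data of a functor from varieties and correspondences of degree zero to vector spaces over
the field `K`. -/
structure CorrFunctor (C : TheoryData.{u, v, 0} 𝒱 ℚ) (K : Type w) [Field K] where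
  /-- the vector space `W(X)` -/
  W : 𝒱.Obj → Type z
  [group : ∀ X, AddCommGroup (W X)]
  [module : ∀ X, Module K (W X)]
  /-- the map `W(X) → W(Y)` given by a cycle on `X × Y` -/
  act : ∀ {X Y : 𝒱.Obj}, C.A (X.prod Y) → (W X →ₗ[K] W Y)

attribute [instance] CorrFunctor.group CorrFunctor.module

variable {C : TheoryData.{u, v, 0} 𝒱 ℚ} {K : Type w} [Field K]

/-- The map `Γ_* : W(X) → W(Y)`. -/
def CorrFunctor.map (P : CorrFunctor.{u, v, w, z} C K) {X Y : 𝒱.Obj} (Γ : C.A (X.prod Y))
    (t : P.W X) : P.W Y := P.act Γ t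

/-- The composition of the actions of the self-correspondences in the list `L`, the first one acting
first. -/
def CorrFunctor.ops (P : CorrFunctor.{u, v, w, z} C K) {X : 𝒱.Obj} (L : List (C.A (X.prod X)))
    (t : P.W X) : P.W X := L.foldl (fun s Γ => P.map Γ s) t

/-- The formal properties, for varieties of dimension `n`, of the functor
`W(X) = V_ℓ H^3_nr(X, ℚ_ℓ/ℤ_ℓ(2))`, the ℓ-adic Tate module, tensored with `ℚ`, of the unramified
cohomology of varieties over a finite field (`K = ℚ_ℓ`): correspondences of degree zero act,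
additively and compatibly with composition, the diagonal acts as the identity, and decomposable
correspondences `x × y` act as zero (for `i < n`, `j > 0` because `x × y` is supported over a proper
closed subset of the target, for `x` a point because `H^3` of a finite field is zero). -/
structure IsBirational (P : CorrFunctor.{u, v, w, z} C K) (n : ℕ) : Prop where
  add : ∀ {X Y : 𝒱.Obj} (Γ Δ : C.A (X.prod Y)) (t : P.W X),
    P.map (Γ + Δ) t = P.map Γ t + P.map Δ t
  smul : ∀ {X Y : 𝒱.Obj} (q : ℚ) (Γ : C.A (X.prod Y)) (t : P.W X),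
    P.map (q • Γ) t = (q : K) • P.map Γ t
  comp : ∀ {X Y Z : 𝒱.Obj} (Γ : C.A (X.prod Y)) (Δ : C.A (Y.prod Z)) (t : P.W X),
    X.dim = n → Y.dim = n → Z.dim = n → C.Deg n Γ → C.Deg n Δ →
      P.map (C.comp Γ Δ) t = P.map Δ (P.map Γ t)
  diag : ∀ {X : 𝒱.Obj} (t : P.W X), X.dim = n →
    P.map (C.down (Obj.lift (𝟙 X) (𝟙 X)) 1) t = t
  ext : ∀ {X Y : 𝒱.Obj} (i j : ℕ) (x : C.A X) (y : C.A Y) (t : P.W X), X.dim = n → Y.dim = n →
    i + j = n → C.Deg i x → C.Deg j y →
      P.map (C.mul (C.up (fst X Y) x) (C.up (snd X Y) y)) t = 0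

variable (P : CorrFunctor.{u, v, w, z} C K) (n : ℕ)

/-- `W(X) = 0` for all varieties `X` of dimension `n`. -/
def Vanishes : Prop := ∀ (X : 𝒱.Obj) (t : P.W X), X.dim = n → t = 0

/-- The dimension of `W(X)` is at most `D` for all varieties `X` of dimension `n`. -/
def DimAtMost (D : ℕ) : Prop :=
  ∀ (X : 𝒱.Obj) (t : Fin (D + 1) → P.W X), X.dim = n →
    ∃ c : Fin (D + 1) → K, c ≠ 0 ∧ ∑ i, c i • t i = 0

/-- Any two self-correspondences of degree zero of a variety `X` of dimension `n` commute on
`W(X)`. -/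
def Commuting : Prop :=
  ∀ (X : 𝒱.Obj) (A B : C.A (X.prod X)) (t : P.W X), X.dim = n → C.Deg n A → C.Deg n B →
    P.map A (P.map B t) = P.map B (P.map A t)

/-- The actions on `W(X)` of any `d` self-correspondences of degree zero of a variety `X` of
dimension `n` satisfy the polynomial identity `∑ c(σ) L_{σ(1)} L_{σ(2)} ⋯ L_{σ(d)} = 0`, the sum over
all permutations `σ`. -/
def Identity (d : ℕ) (c : Equiv.Perm (Fin d) → K) : Prop :=
  ∀ (X : 𝒱.Obj) (L : Fin d → C.A (X.prod X)) (t : P.W X), X.dim = n → (∀ i, C.Deg n (L i)) →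
    ∑ σ, c σ • P.ops (List.ofFn fun i => L (σ i)) t = 0

end Pool.Agent.V1157.UR
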